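import Pool.Agent.MWFE.StmtsC
import Pool.Agent.Helper11_MVD.CntA

/-!
# Squad MWFE, row SEZ (helper67)
-/

set_option autoImplicit false

namespace Pool.Agent.MWFE.H67

open Pool.Agent.Helper14_MV Pool.Agent.Helper2_MV Pool.Agent.MVD
open Pool.Agent.MWE (Can XX fxy dxy dx dy up cp L4 pr Xs xl isx Fs nd nr)

theorem fmcount (f : ℕ → List ℕ) (a z : ℕ) (L : List ℕ) :
    L.count a * (f a).count z ≤ (L.flatMap f).count z := by
  induction L with
  | nil => simp
  | cons b L ih =>
    rw [List.flatMap_cons, List.count_append, List.count_cons]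
    by_cases h : b = a
    · subst h
      rw [beq_self_eq_true, if_pos rfl, Nat.add_mul, Nat.one_mul]
      omega
    · have h' : (b == a) = false := by simpa using h
      rw [h', if_neg (by simp), Nat.add_zero]
      omega

/-- row SEZ -/
theorem sez (hFPZ : FpzStmt) : SezStmt := by
  intro n β m R c s t M Q φ hS hs hF a ha ha2 T hT hT2
  have h1 : 2 ≤ (FqZ n m R s c).count a := (hFPZ n β m R c s hS.hz hS.can hS.pR hs).2.1 a ha ha2
  have h2 : 1 ≤ (φ a).count T := List.count_pos_iff.2 hT
  have h3 := fmcount φ a T (FqZ n m R s c)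
  have h4 : 2 ≤ ((FqZ n m R s c).flatMap φ).count T := by
    calc 2 = 2 * 1 := rfl
      _ ≤ (FqZ n m R s c).count a * (φ a).count T := Nat.mul_le_mul h1 h2
      _ ≤ _ := h3
  have h5 : 2 ≤ (M ++ ((FqZ n m R s c).flatMap φ ++ Q)).count T := by
    rw [List.count_append, List.count_append]
    omega
  obtain ⟨B, e, hw, hB, he, -⟩ := hF.2
  rw [hw] at h5
  have h11 : (Bw R B ++ e).count T = (Bw R B).count T + e.count T := List.count_append
  have hn : R.Nodup := hS.pR.nodup_iff.2 List.nodup_range
  have h9 := Pool.Agent.MVD.H11.sep_count hT2 R B hn (fun r _ => hB r)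
  have h10 : e.count T = 0 := List.count_eq_zero.2 fun hm => he T hm hT2
  omega

end Pool.Agent.MWFE.H67
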